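import Pool.Agent.P.MP_fc15d7_nt.Final

/-! Short `S`-unit expansions with few small coefficients in a rational base `q / p`:
the application of the subspace theorem. -/

set_option autoImplicit false

open Matrix Filter Module Pointwise
open Pool.Agent.P.MP_fc15d7_nt

namespace Pool.Agent.P.MP_9a799e_nt.FLP

/-- the data of a base `q / p` with a chosen prime `l` of `q = l ^ e * c` -/
structure Base (p q l e c m : ℕ) : Prop where
  hq : q = l ^ e * c
  he : 0 < e
  hc : ¬ l ∣ c
  hp : ¬ l ∣ p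
  lt : q < p
  m2 : 2 ≤ m
  ml : Nat.Coprime l m
  mp : Nat.Coprime p m
  md : ∀ (a : ℕ) (k N : ℝ), k * N ≤ a * Real.log c → (m : ℤ) ^ ex m k N ∣ (c : ℤ) ^ a

theorem exists_base {p q : ℕ} (h2 : 2 ≤ q) (hlt : q < p) (hcop : Nat.Coprime p q) :
    ∃ l e c m, l.Prime ∧ Base p q l e c m := by
  obtain ⟨l, hl, hlq⟩ := Nat.exists_prime_and_dvd (show q ≠ 1 by omega)
  obtain ⟨e, c, hc, hq⟩ := Nat.exists_eq_pow_mul_and_not_dvd (show q ≠ 0 by omega) l hl.ne_one
  have he : 0 < e := Nat.pos_of_ne_zero fun h => hc (by rw [hq, h] at hlq; simpa using hlq)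
  have hp : ¬ l ∣ p := fun h => hl.one_lt.ne' (Nat.eq_one_of_dvd_coprimes hcop h hlq)
  have c0 : c ≠ 0 := fun h => hc (h ▸ dvd_zero l)
  by_cases h1 : c = 1
  · have h3 : 2 ≤ l * p + 1 := by have := Nat.mul_pos hl.pos (show 0 < p by omega); omega
    refine ⟨l, e, c, l * p + 1, hl, hq, he, hc, hp, hlt, h3, by simp, ?_, fun a k N h => ?_⟩
    · rw [mul_comm]; simp
    · have : ex (l * p + 1) k N ≤ 0 := (ex_le_iff h3).2 (by simpa [h1] using h)
      rw [Nat.le_zero.1 this, pow_zero]
      exact one_dvd _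
  · have h3 : 2 ≤ c := by omega
    exact ⟨l, e, c, c, hl, hq, he, hc, hp, hlt, h3, (Nat.Prime.coprime_iff_not_dvd hl).2 hc,
      hcop.coprime_dvd_right (hq ▸ Dvd.intro_left _ rfl),
      fun a k N h => pow_dvd_pow _ ((ex_le_iff h3).2 h)⟩

variable {p q l e c m : ℕ} [hl : Fact l.Prime]

omit hl in
theorem Base.c0 (b : Base p q l e c m) : 0 < c :=
  Nat.pos_of_ne_zero fun h => b.hc (h ▸ dvd_zero l)

theorem Base.q0 (b : Base p q l e c m) : 0 < q :=
  b.hq ▸ Nat.mul_pos (pow_pos hl.out.pos _) b.c0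

theorem Base.p2 (b : Base p q l e c m) : 2 ≤ p := by have := b.q0; have := b.lt; omega

theorem Base.logq (b : Base p q l e c m) : Real.log q = e * Real.log l + Real.log c := by
  have h1 : (0 : ℝ) < l := by exact_mod_cast hl.out.pos
  have h2 : (0 : ℝ) < c := by exact_mod_cast b.c0
  rw [b.hq, Nat.cast_mul, Nat.cast_pow, Real.log_mul (by positivity) h2.ne', Real.log_pow]

theorem pad_unit {a : ℕ} (h : ¬ l ∣ a) : Rat.AbsoluteValue.padic l (a : ℚ) = 1 := by
  rw [Rat.AbsoluteValue.padic_eq_padicNorm, (padicNorm.nat_eq_one_iff a).2 h]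
  norm_num

theorem gl_two (b : Base p q l e c m) (a : ℕ) (k : ℤ) :
    Rat.AbsoluteValue.padic l ((q / p : ℚ) ^ a * k) ≤ Real.exp (-(a * (e * Real.log l))) := by
  have h1 : (0 : ℝ) < l := by exact_mod_cast hl.out.pos
  have h2 : Rat.AbsoluteValue.padic l (l : ℚ) = (l : ℝ)⁻¹ := by
    rw [Rat.AbsoluteValue.padic_eq_padicNorm, padicNorm.padicNorm_p_of_prime]
    push_cast
    rfl
  have h3 : Rat.AbsoluteValue.padic l (q : ℚ) = (l : ℝ)⁻¹ ^ e := by
    rw [b.hq, Nat.cast_mul, Nat.cast_pow, map_mul, map_pow, h2, pad_unit b.hc, mul_one]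
  rw [map_mul, map_pow, map_div₀, h3, pad_unit b.hp, Real.exp_neg, Real.exp_nat_mul,
    Real.exp_nat_mul, Real.exp_log h1, div_one, inv_pow, inv_pow]
  exact mul_le_of_le_one_right (by positivity) (Rat.AbsoluteValue.padic_le_one l k)

theorem gl_real (b : Base p q l e c m) (a : ℕ) (k : ℚ) :
    Rat.AbsoluteValue.real ((q / p : ℚ) ^ a * k) =
      Real.exp (-(a * (Real.log p - Real.log q))) * |(k : ℝ)| := by
  have h1 : (0 : ℝ) < q := by exact_mod_cast b.q0
  have h2 : (0 : ℝ) < p := by have := b.p2; positivity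
  rw [← mul_neg, Real.exp_nat_mul, neg_sub, Real.exp_sub, Real.exp_log h1, Real.exp_log h2]
  simp

theorem gl_three (b : Base p q l e c m) (k : ℚ) (n : ℕ) :
    Rat.AbsoluteValue.padic l ((p : ℚ) ^ n * k) = Rat.AbsoluteValue.padic l k := by
  rw [map_mul, map_pow, pad_unit b.hp, one_pow, one_mul]

theorem gl_dvd_two {z : ℤ} {k N : ℝ} (hN : 0 ≤ N)
    (h : l * Rat.AbsoluteValue.padic l z ≤ Real.exp (-(k * N))) :
    (l : ℤ) ^ ex l (max 0 k) N ∣ z := by
  rcases le_total k 0 with hk | hk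
  · simp [max_eq_left hk, ex]
  have h0 : (0 : ℝ) < l := by exact_mod_cast hl.out.pos
  rw [max_eq_right hk, ← Nat.cast_pow, padicNorm.dvd_iff_norm_le, ← Rat.cast_le (K := ℝ)]
  have h1 := pow_ex_le (p := l) hl.out.two_le (mul_nonneg hk hN)
  rw [Rat.AbsoluteValue.padic_eq_padicNorm, Real.exp_neg] at h
  push_cast at h1 ⊢
  rw [_root_.zpow_neg, zpow_natCast]
  refine le_trans ?_ (inv_anti₀ (by positivity) h1)
  rw [mul_inv, ← div_eq_inv_mul, le_div_iff₀ h0]
  linarith

variable {U : Ultrafilter ℕ} {N : ℕ → ℕ}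

/-- the application of the subspace theorem to adapted bases -/
theorem gl_st (b : Base p q l e c m) (hN : Tendsto (fun n => (N n : ℝ)) U atTop) {D B u : ℕ}
    (hu : 0 < u)
    {σ η : ℝ} (hη : 0 < η) (a : Fin D → ℕ → ℕ) (k : Fin D → ℕ → ℤ) (lev tF tG : Fin D → ℕ)
    (LF LG : Matrix (Fin D) (Fin D) ℤ) (g : Fin D → GlR U)
    (hg : ∀ i, glPr U (fun n => (q / p : ℚ) ^ a i n * k i n) = g i)
    (ha : ∀ i n, a i n ≤ B * N n)
    (hv : ∀ i, ∀ᶠ n in U, lev i * N n ≤ u * a i n ∧ u * a i n < (lev i + 1) * N n)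
    (hi : LinearIndependent ℚ g) (hF0 : LF.det ≠ 0) (hG0 : LG.det ≠ 0)
    (hF : ∀ i, ∑ j, (LF i j : ℚ) • g j ∈ glO U (Rat.AbsoluteValue.padic l)
      fun n => -(tF i / u * (e * Real.log l) * N n))
    (hG : ∀ i, ∑ j, (LG i j : ℚ) • g j ∈ glO U Rat.AbsoluteValue.real
      fun n => (σ - tG i / u * (Real.log p - Real.log q)) * N n) :
    (∑ i, (tF i : ℝ)) / u * (e * Real.log l) + (∑ i, (tG i : ℝ)) / u * (Real.log p - Real.log q) ≤
      (∑ i, (lev i : ℝ)) / u * (Real.log p - Real.log c) + D * (σ + 2 * η + Real.log p / u) := by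
  by_contra hc
  have hu' : (0 : ℝ) < u := by exact_mod_cast hu
  have p2 := b.p2
  have p0 : (0 : ℝ) < p := by positivity
  have p0' : (p : ℚ) ≠ 0 := by positivity
  have l3 : 0 < Real.log p := Real.log_pos (by exact_mod_cast p2)
  have l4 : 0 ≤ Real.log c := Real.log_natCast_nonneg c
  let x : ℕ → Fin D → ℤ := fun n i => q ^ a i n * p ^ (B * N n - a i n) * k i n
  have hx : ∀ n i, (x n i : ℚ) = p ^ (B * N n) * ((q / p : ℚ) ^ a i n * k i n) := fun n i => by
    simp only [x]
    push_cast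
    rw [pow_sub₀ _ p0' (ha i n), div_pow]
    ring
  have hL : ∀ (L : Matrix (Fin D) (Fin D) ℤ) n i, (((L *ᵥ x n) i : ℤ) : ℚ) = p ^ (B * N n) *
      (∑ j, (L i j : ℚ) • fun n => (q / p : ℚ) ^ a j n * k j n) n := fun L n i => by
    simp [mulVec, dotProduct, hx, Finset.mul_sum, mul_left_comm]
  have hP : ∀ (c : Fin D → ℚ), ∑ j, c j • g j =
      glPr U (∑ j, c j • fun n => (q / p : ℚ) ^ a j n * k j n) := fun c => by
    simp only [map_sum, map_smul, hg]
  have c1 : Nat.Coprime l p := (Nat.Prime.coprime_iff_not_dvd hl.out).2 b.hp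
  obtain ⟨w, hl0, hl1⟩ := subspace D (Fin 3) ![l, p, m] LG ![LF, 1, 1]
    (fun i => B * Real.log p + σ - tG i / u * (Real.log p - Real.log q) + η)
    ![fun i => max 0 (tF i / u * (e * Real.log l) - η),
      fun i => max 0 ((B - (lev i + 1) / u) * Real.log p), fun i => lev i / u * Real.log c]
    U (fun n => N n) x
    ⟨by simp [Fin.forall_fin_succ, hl.out.two_le, p2, b.m2],
      by
        simp only [Pairwise, Fin.forall_fin_succ]
        simp
        exact ⟨⟨c1, b.ml⟩, ⟨c1.symm, b.mp⟩, b.ml.symm, b.mp.symm⟩, hG0,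
      by simp [Fin.forall_fin_succ, hF0]⟩
    (by
      simp only [Fin.forall_fin_succ, cons_val_zero, cons_val_succ, le_max_left, implies_true,
        true_and, IsEmpty.forall_iff, and_true]
      intro i
      positivity)
    (by
      have h1 : ∑ i, ((tF i : ℝ) / u * (e * Real.log l) - η) ≤
        ∑ i, max 0 ((tF i : ℝ) / u * (e * Real.log l) - η) :=
          Finset.sum_le_sum fun i _ => le_max_right _ _
      have h2 : ∑ i, (((B : ℝ) - (lev i + 1) / u) * Real.log p) ≤
        ∑ i, max 0 (((B : ℝ) - (lev i + 1) / u) * Real.log p) :=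
          Finset.sum_le_sum fun i _ => le_max_right _ _
      simp only [Fin.sum_univ_three, cons_val_zero, cons_val_one, cons_val_two, head_cons,
        tail_cons]
      generalize Real.log p - Real.log q = lam at *
      generalize e * Real.log l = mu at *
      simp only [add_div, sub_mul, add_mul, Finset.sum_add_distrib, Finset.sum_sub_distrib,
        ← Finset.sum_mul, ← Finset.sum_div, Finset.sum_const, Finset.card_univ, Fintype.card_fin,
        nsmul_eq_mul] at h1 h2 ⊢
      have e1 : (D : ℝ) * (Real.log p / u) = D * 1 / u * Real.log p := by ring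
      linarith) hN
    (by
      have h1 := eventually_all.2 fun i => gl_ev hN (hP _ ▸ hF i) l l.cast_nonneg hη
      have h2 := eventually_all.2 fun i => gl_ev hN (hP _ ▸ hG i) 1 one_pos.le hη
      filter_upwards [h1, h2, eventually_all.2 hv] with n h1 h2 h3
      refine ⟨fun i => ?_, fun v => ?_⟩
      · have := h2 i
        rw [one_mul, Rat.AbsoluteValue.real_eq_abs, Rat.cast_abs] at this
        rw [← Rat.cast_intCast, hL, Rat.cast_mul, abs_mul]
        refine (mul_le_mul_of_nonneg_left this (abs_nonneg _)).trans_eq ?_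
        rw [show |(((p : ℚ) ^ (B * N n) : ℚ) : ℝ)| = Real.exp ((B * N n : ℕ) * Real.log p) by
          rw [Real.exp_nat_mul, Real.exp_log p0]; simp, ← Real.exp_add]
        congr 1
        push_cast
        ring
      fin_cases v <;> intro i
      · simp only [Fin.zero_eta, cons_val_zero]
        refine gl_dvd_two (Nat.cast_nonneg _) ?_
        rw [hL, gl_three b]
        refine (h1 i).trans_eq ?_
        congr 1
        ring
      · simp only [Fin.mk_one, cons_val_one, cons_val_zero, one_mulVec, x]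
        refine ((pow_dvd_pow _ ?_).mul_left _).mul_right _
        rw [ex_le_iff p2, max_mul_of_nonneg _ _ (Nat.cast_nonneg _), max_le_iff]
        refine ⟨by rw [zero_mul]; positivity, ?_⟩
        have h4 : (u : ℝ) * a i n ≤ (lev i + 1) * N n := by exact_mod_cast (h3 i).2.le
        have h5 : (a i n : ℝ) ≤ (lev i + 1) / u * N n := by
          rw [div_mul_eq_mul_div, le_div_iff₀ hu']
          linarith
        rw [Nat.cast_sub (ha i n)]
        push_cast
        nlinarith
      · simp only [Fin.reduceFinMk, cons_val_two, head_cons, tail_cons, one_mulVec, x]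
        refine (((b.md (a i n) _ _ ?_).trans (pow_dvd_pow_of_dvd ?_ _)).mul_right _).mul_right _
        · have h4 : (lev i : ℝ) * N n ≤ u * a i n := by exact_mod_cast (h3 i).1
          have h5 : (lev i : ℝ) / u * N n ≤ a i n := by
            rw [div_mul_eq_mul_div, div_le_iff₀ hu']
            linarith
          nlinarith
        · exact Int.natCast_dvd_natCast.2 (b.hq ▸ Dvd.intro_left _ rfl))
  refine hl0 (funext fun i => ?_)
  have := Fintype.linearIndependent_iff.1 hi (fun j => (w j : ℚ)) (by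
    rw [hP, ← map_zero (glPr U), gl_pr_eq]
    filter_upwards [hl1] with n h
    have h1 := congrArg (Int.cast : ℤ → ℚ) h
    simp only [Int.cast_sum, Int.cast_mul, hx, Int.cast_zero] at h1
    have h2 : (p : ℚ) ^ (B * N n) *
        (∑ j, (w j : ℚ) • fun n => (q / p : ℚ) ^ a j n * k j n) n = 0 := by
      rw [← h1]
      simp [Finset.mul_sum, mul_left_comm]
    exact (mul_eq_zero.1 h2).resolve_left (by positivity)) i
  exact_mod_cast this

end Pool.Agent.P.MP_9a799e_nt.FLP
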