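import Pool.Agent.P.MP_9a799e_nt.FLP.A

/-! Short `S`-unit expansions with few small coefficients in a rational base `q / p`. -/

set_option autoImplicit false

open Matrix Filter Module Pointwise
open Pool.Agent.P.MP_fc15d7_nt

namespace Pool.Agent.P.MP_9a799e_nt.FLP

/-- No short expansion in base `ρ` with few small coefficients is very small at the numerator. -/
def GLq (ρ : ℚ) : Prop :=
  ∀ s : ℕ, ∃ δ : ℝ, 0 < δ ∧ ∀ r : ℕ, ∃ N0 : ℕ, ∀ N : ℕ, N0 ≤ N →
    ∀ (d : ℕ) (W : Finset ℤ) (l : List (ℕ × ℤ)) (M : ℤ), W.card ≤ s → l.length ≤ r → 0 < d →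
      (d : ℝ) ≤ Real.exp (δ * N) → (∀ x ∈ W, |(x : ℝ)| ≤ Real.exp (δ * N)) →
      (∀ y ∈ l, y.1 ≤ N ∧ y.2 ∈ W) →
      (l.map fun y => ρ ^ y.1 * y.2).sum = d * ρ ^ N * M →
      1 ≤ ρ ^ N * |(M : ℚ)| → False

variable {U : Ultrafilter ℕ}

/-- monomials -/
def QMon (ρ : ℚ) (U : Ultrafilter ℕ) (N : ℕ → ℕ) (δ : ℝ) (j B : ℕ) (x : GlR U) : Prop :=
  ∃ (a : ℕ → ℕ) (k : ℕ → ℤ), glPr U (fun n => ρ ^ a n * k n) = x ∧
    ∀ n, a n ≤ B * N n ∧ |(k n : ℝ)| ≤ Real.exp (j * δ * N n)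

variable {N : ℕ → ℕ} {δ : ℝ} {ρ : ℚ}

theorem QMon.mul {j B j' B' : ℕ} {x y : GlR U} (hx : QMon ρ U N δ j B x)
    (hy : QMon ρ U N δ j' B' y) : QMon ρ U N δ (j + j') (B + B') (x * y) := by
  obtain ⟨a, k, rfl, h⟩ := hx
  obtain ⟨a', k', rfl, h'⟩ := hy
  refine ⟨a + a', k * k', ?_, fun n => ⟨?_, ?_⟩⟩
  · rw [← map_mul]
    congr 1
    funext n
    simp only [Pi.add_apply, Pi.mul_apply, pow_add, Int.cast_mul]
    ring
  · rw [add_mul]
    exact Nat.add_le_add (h n).1 (h' n).1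
  · rw [Pi.mul_apply, Int.cast_mul, abs_mul, Nat.cast_add, add_mul, add_mul, Real.exp_add]
    exact mul_le_mul (h n).2 (h' n).2 (abs_nonneg _) (Real.exp_pos _).le

theorem q_mon_pow {j B : ℕ} {A : Set (GlR U)} (hA : ∀ x ∈ A, QMon ρ U N δ j B x) (e : ℕ) :
    ∀ x ∈ A ^ e, QMon ρ U N δ (e * j) (e * B) x := by
  induction e with
  | zero =>
    intro x hx
    rw [pow_zero, Set.mem_one] at hx
    subst hx
    refine ⟨0, 1, ?_, fun n => by simp⟩
    rw [← map_one (glPr U)]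
    congr 1
    funext n
    simp
  | succ e ih =>
    intro x hx
    rw [pow_succ] at hx
    obtain ⟨y, hy, z, hz, rfl⟩ := hx
    rw [add_mul, add_mul, one_mul, one_mul]
    exact (ih y hy).mul (hA z hz)

theorem q_data {s r N : ℕ} {K : ℝ} (hK : 0 ≤ K) {W : Finset ℤ} {l : List (ℕ × ℤ)}
    (hW : W.card ≤ s) (hl : l.length ≤ r) (h1 : ∀ x ∈ W, |(x : ℝ)| ≤ K)
    (h2 : ∀ y ∈ l, y.1 ≤ N ∧ y.2 ∈ W) : ∃ (u : Fin s → ℤ) (a : Fin r → ℕ) (e : Fin r → Fin s → ℤ),
      (∀ j, |(u j : ℝ)| ≤ K) ∧ (∀ i, a i ≤ N) ∧ (∀ i j, |(e i j : ℝ)| ≤ 1) ∧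
      (l.map fun y => ρ ^ y.1 * y.2).sum =
        ∑ i, ∑ j, (u j : ℚ) * (ρ ^ a i * e i j) := by
  let u : Fin s → ℤ := fun j => if h : j.1 < W.card then (W.equivFin.symm ⟨j, h⟩).1 else 0
  have h3 : ∀ i : Fin r, (l.getD i (0, 0)).1 ≤ N ∧ ∃ e : Fin s → ℤ, (∀ j, |(e j : ℝ)| ≤ 1) ∧
      ∑ j, (u j : ℚ) * e j = (l.getD i (0, 0)).2 := fun i => by
    by_cases hi : i.1 < l.length
    · rw [List.getD_eq_getElem _ _ hi]
      obtain ⟨b1, b2⟩ := h2 _ (List.getElem_mem hi)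
      refine ⟨b1, Pi.single ((W.equivFin ⟨_, b2⟩).castLE hW) 1, fun j => ?_, ?_⟩
      · rw [Pi.single_apply]
        split_ifs <;> simp
      · rw [Finset.sum_eq_single ((W.equivFin ⟨_, b2⟩).castLE hW)
          (fun j _ hj => by simp [Pi.single_eq_of_ne hj]) (by simp)]
        simp [u]
    · rw [List.getD_eq_default _ _ (not_lt.1 hi)]
      exact ⟨Nat.zero_le _, 0, by simp, by simp⟩
  choose h4 e h5 h6 using h3
  refine ⟨u, _, e, fun j => ?_, h4, h5, ?_⟩
  · simp only [u]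
    split_ifs with h
    · exact h1 _ (W.equivFin.symm ⟨j, h⟩).2
    · simpa using hK
  · rw [gl_list (by simp) l r hl, Finset.sum_range]
    refine Finset.sum_congr rfl fun i _ => ?_
    rw [← h6, Finset.mul_sum]
    exact Finset.sum_congr rfl fun j _ => by ring

section

variable {p q l e c m : ℕ} [hl : Fact l.Prime]

theorem q_core (b : Base p q l e c m) (hN : Tendsto (fun n => (N n : ℝ)) U atTop)
    {j B : ℕ} (hδ : ((j + 1 : ℕ) : ℝ) * δ ≤ min (e * Real.log l) (Real.log p - Real.log q) / 8) {A Y : Finset (GlR U)}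
    (hA : ∀ x ∈ A, QMon (q / p) U N δ 1 0 x) (hY : ∀ x ∈ Y, QMon (q / p) U N δ 0 1 x)
    (hgr : finrank ℚ ↥(Submodule.span ℚ (A : Set (GlR U)) ^ (j + 1) *
      Submodule.span ℚ (Y : Set (GlR U)) ^ (B + 1)) ≤ 2 * finrank ℚ
        ↥(Submodule.span ℚ (A : Set (GlR U)) ^ j * Submodule.span ℚ (Y : Set (GlR U)) ^ B))
    {d : ℕ → ℚ} {M : ℕ → ℤ} (hq : ∀ n, d n ≠ 0) (hM : ∀ n, 1 ≤ (q / p : ℚ) ^ N n * |(M n : ℚ)|)
    (hqA : glPr U d ∈ A) (h1Y : 1 ∈ Y)
    (hV : glPr U (fun n => (q / p : ℚ) ^ N n * M n) * glPr U d ∈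
      Submodule.span ℚ (A : Set (GlR U)) * Submodule.span ℚ (Y : Set (GlR U))) : False := by
  classical
  have q0 : (0 : ℝ) < q := by exact_mod_cast b.q0
  have q0' : (0 : ℚ) < q := by exact_mod_cast b.q0
  have p2 := b.p2
  have p0' : (0 : ℚ) < p := by positivity
  have hlog := b.logq
  set lam := Real.log p - Real.log q with hlam
  set mu := e * Real.log l with hmu
  have l2 : 0 < mu := mul_pos (by exact_mod_cast b.he) (Real.log_pos (by exact_mod_cast hl.out.one_lt))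
  have l0 : 0 < lam := sub_pos.2 (Real.log_lt_log q0 (by exact_mod_cast b.lt))
  obtain ⟨kap, k0, k1, k2, hδ⟩ : ∃ kap : ℝ, 0 < kap ∧ kap ≤ mu ∧ kap ≤ lam ∧
      ((j + 1 : ℕ) : ℝ) * δ ≤ kap / 8 := ⟨_, lt_min l2 l0, min_le_left _ _, min_le_right _ _, hδ⟩
  obtain ⟨u, hu⟩ := exists_nat_gt (8 * Real.log p / kap)
  have l3 : 0 < Real.log p := Real.log_pos (by exact_mod_cast p2)
  have hu0 : (0 : ℝ) < u := lt_trans (by positivity) hu
  set SA := Submodule.span ℚ (A : Set (GlR U))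
  set SY := Submodule.span ℚ (Y : Set (GlR U))
  let S : Finset (GlR U) := A ^ (j + 1) * Y ^ (B + 1)
  have hS : Submodule.span ℚ (S : Set (GlR U)) = SA ^ (j + 1) * SY ^ (B + 1) := by
    rw [Submodule.span_pow, Submodule.span_pow, Submodule.span_mul_span, Finset.coe_mul,
      Finset.coe_pow, Finset.coe_pow]
  have hmon : ∀ x ∈ S, ∃ (a : ℕ → ℕ) (k : ℕ → ℤ) (t : ℕ),
      glPr U (fun n => (q / p : ℚ) ^ a n * k n) = x ∧ (∀ n, a n ≤ (B + 1) * N n ∧
        |(k n : ℝ)| ≤ Real.exp ((j + 1 : ℕ) * δ * N n)) ∧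
      ∀ᶠ n in U, t * N n ≤ u * a n ∧ u * a n < (t + 1) * N n := fun x hx => by
    rw [← Finset.mem_coe, Finset.coe_mul, Finset.coe_pow, Finset.coe_pow] at hx
    obtain ⟨y, hy, z, hz, rfl⟩ := hx
    obtain ⟨a, k, h1, h2⟩ := (q_mon_pow hA _ y hy).mul (q_mon_pow hY _ z hz)
    simp only [mul_one, mul_zero, add_zero, zero_add] at h2
    obtain ⟨t, ht⟩ := gl_level (U := U) ((hN.eventually_gt_atTop 0).mono fun n h => by
      exact_mod_cast h) (fun n => (h2 n).1) u
    exact ⟨a, k, t, h1, h2, ht⟩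
  choose! a k lev e1 e2 e3 using hmon
  have hstep : ∀ y ∈ SA * SY, ∀ x ∈ SA ^ j * SY ^ B, y * x ∈ Submodule.span ℚ (S : Set (GlR U)) :=
    fun y hy x hx => by
      rw [hS, gl_step]
      exact Submodule.mul_mem_mul hy hx
  have hqm : glPr U d ∈ SA * SY := by
    rw [← mul_one (glPr U d)]
    exact Submodule.mul_mem_mul (Submodule.subset_span hqA) (Submodule.subset_span h1Y)
  have hM0 : ∀ n, (q / p : ℚ) ^ N n * M n ≠ 0 := fun n h => by
    have := hM n
    rw [(mul_eq_zero.1 h).resolve_left (by positivity)] at this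
    norm_num at this
  let X := (SA ^ j * SY ^ B).map (LinearMap.mulLeft ℚ (glPr U d))
  have hinj : Function.Injective (LinearMap.mulLeft ℚ (glPr U d)) :=
    (injective_iff_map_eq_zero _).2 fun x hx => gl_inj hq hx
  have hX : finrank ℚ X = finrank ℚ ↥(SA ^ j * SY ^ B) :=
    (Submodule.equivMapOfInjective _ hinj _).finrank_eq.symm
  have hXS : X ≤ Submodule.span ℚ (S : Set (GlR U)) := by
    rintro _ ⟨x, hx, rfl⟩
    exact hstep _ hqm x hx
  have hX0 : 0 < finrank ℚ X := by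
    have : FiniteDimensional ℚ X := Submodule.finiteDimensional_of_le hXS
    refine finrank_pos_iff_exists_ne_zero.2 ⟨⟨_, _, Submodule.mul_mem_mul (Submodule.pow_mem_pow _
      (Submodule.subset_span hqA) j) (Submodule.pow_mem_pow _ (Submodule.subset_span h1Y) B),
      rfl⟩, fun h => ?_⟩
    have h1 : glPr U d * (glPr U d ^ j * 1 ^ B) = 0 := congrArg Subtype.val h
    rw [one_pow, mul_one, ← map_pow, ← map_mul, ← map_zero (glPr U), gl_pr_eq] at h1
    obtain ⟨n, hn⟩ := h1.exists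
    exact mul_ne_zero (hq n) (pow_ne_zero j (hq n)) hn
  obtain ⟨D, g, LF, LG, tF, tG, hD, hg, hi, hF0, hG0, hF, hG, i1, i2, i3⟩ := t_GAIN t_FLAG _ S lev
    (fun t => glO U (Rat.AbsoluteValue.padic l) fun n => -(t / u * mu * N n))
    (fun t => glO U Rat.AbsoluteValue.real fun n => ((j + 1 : ℕ) * δ - t / u * lam) * N n) X
    (LinearMap.mulLeft ℚ (glPr U fun n => (q / p : ℚ) ^ N n * M n)) u
    (fun s t hst => gl_mono fun n => by
      have : (s : ℝ) ≤ t := by exact_mod_cast hst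
      gcongr)
    (fun s t hst => gl_mono fun n => by
      have : (s : ℝ) ≤ t := by exact_mod_cast hst
      gcongr)
    (fun x hx => by
      have h1 : ∀ᶠ n in U, (lev x : ℝ) / u * N n ≤ a x n := (e3 x hx).mono fun n h => by
        have h4 : (lev x : ℝ) * N n ≤ u * a x n := by exact_mod_cast h.1
        rw [div_mul_eq_mul_div, div_le_iff₀ hu0]
        linarith
      constructor
      · refine ⟨_, e1 x hx, 1, h1.mono fun n h => (gl_two b _ _).trans ?_⟩
        rw [one_mul, Real.exp_le_exp]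
        nlinarith
      · refine ⟨_, e1 x hx, 1, h1.mono fun n h => ?_⟩
        rw [one_mul, gl_real b, Rat.cast_intCast]
        refine (mul_le_mul_of_nonneg_left (e2 x hx n).2 (Real.exp_pos _).le).trans ?_
        rw [← Real.exp_add, Real.exp_le_exp]
        nlinarith) hXS
    (by
      rintro _ ⟨_, ⟨x, hx, rfl⟩, rfl⟩
      have := hstep _ hV x hx
      rwa [mul_assoc] at this)
    (fun x _ hx => gl_inj hM0 hx)
    (fun s x _ hx => by
      obtain ⟨f, rfl⟩ := gl_surj x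
      obtain ⟨C, hC⟩ := gl_mem.1 hx
      refine ⟨_, map_mul _ _ _, C, hC.mono fun n h => ?_⟩
      rw [Pi.mul_apply, map_mul]
      refine (mul_le_mul (gl_two b _ _) h (AbsoluteValue.nonneg _ _) (Real.exp_pos _).le).trans_eq ?_
      rw [mul_left_comm, ← Real.exp_add]
      congr 2
      push_cast
      field_simp
      ring)
    (fun s x _ hx => by
      obtain ⟨f, rfl⟩ := gl_surj x
      rw [LinearMap.mulLeft_apply, ← map_mul] at hx
      obtain ⟨C, hC⟩ := gl_mem.1 hx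
      refine gl_mem.2 ⟨C, hC.mono fun n h => le_trans ?_ h⟩
      rw [Pi.mul_apply, map_mul]
      refine le_mul_of_one_le_left (AbsoluteValue.nonneg _ _) ?_
      rw [Rat.AbsoluteValue.real_eq_abs, abs_mul, abs_of_pos (by positivity)]
      exact_mod_cast hM n)
  have key := gl_st b hN (by exact_mod_cast hu0) (η := kap / 16) (by positivity)
    (fun i => a (g i)) (fun i => k (g i)) (fun i => lev (g i)) tF tG LF LG g
    (fun i => e1 _ (hg i)) (fun i n => (e2 _ (hg i) n).1)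
    (fun i => e3 _ (hg i)) hi hF0 hG0 hF hG
  rw [← hS, ← hD, ← hX] at hgr
  have j0 : (D : ℝ) ≤ 2 * finrank ℚ X := by exact_mod_cast hgr
  have j1 : (∑ i, (lev (g i) : ℝ)) ≤ ∑ i, (tF i : ℝ) := by exact_mod_cast i1
  have j2 : (∑ i, (lev (g i) : ℝ)) ≤ ∑ i, (tG i : ℝ) := by exact_mod_cast i2
  have j3 : 2 * (∑ i, (lev (g i) : ℝ)) + u * finrank ℚ X ≤ ∑ i, (tF i : ℝ) + ∑ i, (tG i : ℝ) := by
    exact_mod_cast i3
  have j4 : (0 : ℝ) < finrank ℚ X := by exact_mod_cast hX0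
  have j5 : Real.log p / u ≤ kap / 8 := by
    rw [div_lt_iff₀ k0] at hu
    rw [div_le_iff₀ hu0]
    linarith
  generalize (∑ i, (lev (g i) : ℝ)) = x0, (∑ i, (tF i : ℝ)) = x1, (∑ i, (tG i : ℝ)) = x2,
    (finrank ℚ X : ℝ) = r at *
  have j6 : (D : ℝ) * ((j + 1 : ℕ) * δ + 2 * (kap / 16) + Real.log p / u) ≤
      2 * r * (3 * kap / 8) :=
    (mul_le_mul_of_nonneg_left (by linarith) D.cast_nonneg).trans
      (mul_le_mul_of_nonneg_right j0 (by positivity))
  have j7 : r * kap ≤ x1 / u * mu + x2 / u * lam - x0 / u * (Real.log p - Real.log c) := by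
    have : x1 / u * mu + x2 / u * lam - x0 / u * (Real.log p - Real.log c) =
        ((x1 - x0) * mu + (x2 - x0) * lam) / u := by
      rw [show Real.log p - Real.log c = mu + lam by linarith]; ring
    rw [this, le_div_iff₀ hu0]
    nlinarith [mul_le_mul_of_nonneg_left k1 (sub_nonneg.2 j1),
      mul_le_mul_of_nonneg_left k2 (sub_nonneg.2 j2)]
  nlinarith [mul_pos j4 k0]

end

theorem q_GL {p q : ℕ} (h2q : 2 ≤ q) (hlt : q < p) (hcop : Nat.Coprime p q) :
    GLq (q / p) := by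
  classical
  intro s
  obtain ⟨J, hJ⟩ := t_GROW (s + 1)
  obtain ⟨l0, e0, c0, m0, hl0, b⟩ := exists_base h2q hlt hcop
  have : Fact l0.Prime := ⟨hl0⟩
  have l0' : 0 < min (e0 * Real.log l0) (Real.log p - Real.log q) :=
    lt_min (mul_pos (by exact_mod_cast b.he) (Real.log_pos (by exact_mod_cast hl0.one_lt)))
      (sub_pos.2 (Real.log_lt_log (by positivity) (by exact_mod_cast hlt)))
  set δ := min (e0 * Real.log l0) (Real.log p - Real.log q) / 8 / (J + 1) with hδ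
  refine ⟨δ, by positivity, fun r => ?_⟩
  by_contra hc
  push Not at hc
  choose N hN d W l M h1 h2 h3 h4 h5 h6 h7 h8 using hc
  choose u a e k1 k2 k3 k4 using fun n => q_data (ρ := q / p) (Real.exp_pos _).le (h1 n) (h2 n) (h5 n) (h6 n)
  let U := hyperfilter ℕ
  let A : Finset (GlR U) := insert (glPr U fun n => d n)
    (Finset.univ.image fun j => glPr U fun n => u n j)
  let Y : Finset (GlR U) := insert 1 (Finset.univ.image fun t : Fin r × Fin s =>
    glPr U fun n => (q / p : ℚ) ^ a n t.1 * e n t.1 t.2)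
  obtain ⟨j, hj, B, hB⟩ := hJ _ A Y ((Finset.card_insert_le _ _).trans
    (Nat.succ_le_succ (Finset.card_image_le.trans_eq (by simp))))
  refine q_core b (N := N) (δ := δ) (M := M) ((tendsto_natCast_atTop_atTop.comp
    (tendsto_atTop_mono hN tendsto_id)).mono_left Nat.hyperfilter_le_atTop) ?_ ?_ ?_ hB
    (fun n => Nat.cast_ne_zero.2 (h3 n).ne') (fun n => (h8 n).1) (Finset.mem_insert_self _ _)
    (Finset.mem_insert_self _ _) ?_
  · rw [hδ, mul_comm, div_mul_eq_mul_div, div_le_iff₀ (by positivity)]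
    have : ((j + 1 : ℕ) : ℝ) ≤ J + 1 := by exact_mod_cast Nat.succ_le_succ hj.le
    gcongr
  · intro x hx
    rcases Finset.mem_insert.1 hx with rfl | hx
    · exact ⟨0, fun n => d n, by congr 1; funext n; simp, fun n => by simpa using h4 n⟩
    · obtain ⟨i, -, rfl⟩ := Finset.mem_image.1 hx
      exact ⟨0, fun n => u n i, by congr 1; funext n; simp, fun n => by simpa using k1 n i⟩
  · intro x hx
    rcases Finset.mem_insert.1 hx with rfl | hx
    · exact ⟨0, 1, by rw [← map_one (glPr U)]; congr 1; funext n; simp, fun n => by simp⟩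
    · obtain ⟨t, -, rfl⟩ := Finset.mem_image.1 hx
      exact ⟨_, _, rfl, fun n => by simpa using ⟨k2 n t.1, k3 n t.1 t.2⟩⟩
  · have : (glPr U fun n => (q / p : ℚ) ^ N n * M n) * (glPr U fun n => d n) =
        ∑ i, ∑ j, (glPr U fun n => u n j) * glPr U fun n => (q / p : ℚ) ^ a n i * e n i j := by
      simp only [← map_mul, ← map_sum]
      congr 1
      funext n
      simp only [Pi.mul_apply, Finset.sum_apply, ← k4 n, h7 n]
      ring
    rw [this]
    refine Submodule.sum_mem _ fun i _ => Submodule.sum_mem _ fun j _ => Submodule.mul_mem_mul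
      (Submodule.subset_span ?_) (Submodule.subset_span ?_)
    · exact Finset.mem_insert_of_mem (Finset.mem_image_of_mem _ (Finset.mem_univ j))
    · exact Finset.mem_insert_of_mem (Finset.mem_image_of_mem _ (Finset.mem_univ (i, j)))

end Pool.Agent.P.MP_9a799e_nt.FLP
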