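import Pool.Agent.P.MP_9a799e_nt.FLP.B

/-! The carry word of an integer orbit of `z ↦ (p z + (p - q) ε) / q` has no long initial part made
of few powers of few short blocks. -/

set_option autoImplicit false

open Finset
open Pool.Agent.P.MP_fc15d7_nt

namespace Pool.Agent.P.MP_9a799e_nt.FLP

/-- the value of a block -/
def kB (ρ : ℚ) (ε : ℕ → ℕ) (π a : ℕ) : ℚ := ∑ j ∈ range a, (ε (π + j) : ℚ) * ρ ^ j

variable {ρ : ℚ}

theorem k_bd (h0 : 0 ≤ ρ) {ε : ℕ → ℕ} (h : ∀ i, ε i ≤ 1) (π a : ℕ) :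
    0 ≤ kB ρ ε π a ∧ (1 - ρ) * kB ρ ε π a ≤ 1 - ρ ^ a ∨ 1 < ρ := by
  rcases lt_or_ge 1 ρ with h1 | h1
  · exact Or.inr h1
  refine Or.inl ⟨sum_nonneg fun _ _ => by positivity, ?_⟩
  induction a with
  | zero => simp [kB]
  | succ a ih =>
    have h2 : (ε (π + a) : ℚ) ≤ 1 := by exact_mod_cast h _
    have h3 := mul_le_of_le_one_left (by positivity : (0 : ℚ) ≤ ρ ^ a) h2
    unfold kB at ih ⊢
    rw [sum_range_succ, pow_succ]
    nlinarith [mul_le_mul_of_nonneg_left h3 (sub_nonneg.2 h1)]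

theorem k_val {p q : ℕ} (hp : 0 < p) (hlt : q ≤ p) (ε : ℕ → ℕ) (π a : ℕ) {d : ℕ}
    (h : p ^ a - q ^ a ∣ d) :
    ∃ v : ℤ, (1 - (q / p : ℚ) ^ a) * v = d * kB (q / p) ε π a := by
  obtain ⟨c, rfl⟩ := h
  have p0 : (p : ℚ) ≠ 0 := by positivity
  refine ⟨c * ∑ j ∈ range a, ε (π + j) * q ^ j * p ^ (a - j), ?_⟩
  rw [Nat.cast_mul, Nat.cast_sub (Nat.pow_le_pow_left hlt a), kB]
  push_cast
  simp only [mul_sum]
  refine sum_congr rfl fun j hj => ?_
  obtain ⟨b, rfl⟩ := Nat.exists_eq_add_of_le (mem_range.1 hj).le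
  rw [Nat.add_sub_cancel_left, div_pow, div_pow, pow_add (p : ℚ)]
  field_simp

theorem k_pow {ε : ℕ → ℕ} {π a i : ℕ} {d v : ℚ} (h : (1 - ρ ^ a) * v = d * kB ρ ε π a)
    (k : ℕ) (h' : ∀ t < k, ∀ j < a, ε (i + t * a + j) = ε (π + j)) :
    d * kB ρ ε 0 (i + k * a) = d * kB ρ ε 0 i + (ρ ^ i - ρ ^ (i + k * a)) * v := by
  induction k with
  | zero => simp
  | succ k ih =>
    have h1 : kB ρ ε 0 (i + k * a + a) =
        kB ρ ε 0 (i + k * a) + ρ ^ (i + k * a) * kB ρ ε π a := by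
      unfold kB
      rw [sum_range_add, mul_sum]
      congr 1
      refine sum_congr rfl fun j hj => ?_
      rw [zero_add, h' k k.lt_succ_self j (mem_range.1 hj), pow_add]
      ring
    rw [add_mul k, one_mul, ← add_assoc, h1, mul_add, ih fun t ht => h' t (by omega),
      pow_add _ _ a]
    linear_combination -ρ ^ (i + k * a) * h

theorem k_list {ε : ℕ → ℕ} {Ty : Finset (ℕ × ℕ)} {d : ℚ} {val : ℕ × ℕ → ℤ} {W : Finset ℤ}
    {c : ℤ} (hc : c ∈ W) (h : ∀ y ∈ Ty, (val y ∈ W ∧ -val y ∈ W) ∧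
      (1 - ρ ^ y.2) * val y = d * kB ρ ε y.1 y.2) {r i : ℕ} (hd : Dec ε Ty r i) :
    ∃ l : List (ℕ × ℤ), l.length = 2 * r + 1 ∧ (∀ y ∈ l, y.1 ≤ i ∧ y.2 ∈ W) ∧
      (l.map fun y => ρ ^ y.1 * y.2).sum = c - d * kB ρ ε 0 i := by
  induction hd with
  | zero => exact ⟨[(0, c)], rfl, by simpa using hc, by simp [kB]⟩
  | @step r i π a k _ h1 h2 ih =>
    obtain ⟨l, l1, l2, l3⟩ := ih
    refine ⟨(i, -val (π, a)) :: (i + k * a, val (π, a)) :: l, by simp only [List.length_cons]; omega,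
      ?_, ?_⟩
    · simp only [List.forall_mem_cons]
      exact ⟨⟨by omega, (h _ h1).1.2⟩, ⟨le_rfl, (h _ h1).1.1⟩,
        fun y hy => ⟨(l2 y hy).1.trans (by omega), (l2 y hy).2⟩⟩
    · rw [List.map_cons, List.map_cons, List.sum_cons, List.sum_cons, l3, k_pow (h _ h1).2 k h2]
      push_cast
      ring

theorem k_orb {p q : ℕ} (hp : 0 < p) {ε : ℕ → ℕ} {z : ℕ → ℤ}
    (hz : ∀ i, q * z (i + 1) = p * z i + (p - q) * ε i) (N : ℕ) :
    -(p * z 0 : ℚ) - (p - q) * kB (q / p) ε 0 N = (q / p) ^ N * (-(p * z N)) := by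
  have p0 : (p : ℚ) ≠ 0 := by positivity
  induction N with
  | zero => simp [kB]
  | succ N ih =>
    unfold kB at ih ⊢
    rw [sum_range_succ, mul_add, ← sub_sub, ih, zero_add, pow_succ]
    have h' : (q : ℚ) * z (N + 1) = p * z N + (p - q) * ε N := by exact_mod_cast hz N
    have h2 : (q / p : ℚ) * p = q := div_mul_cancel₀ _ p0
    generalize (q / p : ℚ) = ρ at *
    linear_combination ρ ^ N * h' + ρ ^ N * z (N + 1) * h2

theorem q_KEY {p q : ℕ} (h2q : 2 ≤ q) (hlt : q < p) (hcop : Nat.Coprime p q) (s c0 K : ℕ) :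
    ∃ T : ℕ, ∀ r0 : ℕ, ∃ n1 : ℕ, ∀ n : ℕ, n1 ≤ n → ∀ (ε : ℕ → ℕ) (z : ℕ → ℤ), (∀ i, ε i ≤ 1) →
      (∀ i, q * z (i + 1) = p * z i + (p - q) * ε i) → 2 ≤ |z 0| → |z 0| ≤ p ^ (K * n) →
      ∀ (Ty : Finset (ℕ × ℕ)) (r N : ℕ), Ty.card ≤ s → (∀ y ∈ Ty, 1 ≤ y.2 ∧ y.2 ≤ c0 * n) →
        r ≤ r0 → T * n ≤ N → ¬ Dec ε Ty r N := by
  obtain ⟨δ, hδ, H⟩ := q_GL h2q hlt hcop (2 * s + 1)
  refine ⟨⌈p * ((s * c0 + K + 1 : ℕ) : ℝ) / δ⌉₊ + 1, fun r0 => ?_⟩
  obtain ⟨N0, H⟩ := H (2 * r0 + 1)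
  refine ⟨max N0 1, fun n hn ε z hε hz z1 z2 Ty r N h1 h2 h3 h4 hd => ?_⟩
  rw [max_le_iff] at hn
  have hp : 0 < p := by omega
  have p0 : (0 : ℚ) < p := by positivity
  have pq : (q : ℚ) < p := by exact_mod_cast hlt
  have r0' : (0 : ℚ) ≤ q / p := by positivity
  have r1 : (q / p : ℚ) < 1 := (div_lt_one p0).2 pq
  have r2 : (p : ℚ) * (1 - q / p) = p - q := by field_simp
  obtain ⟨d, hq⟩ : ∃ d : ℕ, d = ∏ y ∈ Ty, (p ^ y.2 - q ^ y.2) := ⟨_, rfl⟩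
  have q0 : 0 < d := hq ▸ prod_pos fun y hy =>
    Nat.sub_pos_of_lt (Nat.pow_lt_pow_left hlt (by have := h2 y hy; omega))
  have q1 : d ≤ p ^ (s * c0 * n) := by
    refine hq ▸ (prod_le_pow_card _ _ (p ^ (c0 * n)) fun y hy => (Nat.sub_le _ _).trans
      (Nat.pow_le_pow_right hp (h2 y hy).2)).trans ?_
    rw [← pow_mul]
    exact Nat.pow_le_pow_right hp ((Nat.mul_le_mul_left _ h1).trans_eq (by ring))
  have z3 : (z 0).natAbs ≤ p ^ (K * n) := by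
    rw [← Nat.cast_le (α := ℤ), Int.natCast_natAbs]
    exact_mod_cast z2
  have z4 : 2 ≤ (z 0).natAbs := by
    rw [← Nat.cast_le (α := ℤ), Int.natCast_natAbs]
    exact_mod_cast z1
  have q2 : ((p * d * (z 0).natAbs : ℕ) : ℝ) ≤ Real.exp (δ * N) := by
    have a1 : p * d * (z 0).natAbs ≤ p ^ ((s * c0 + K + 1) * n) := by
      have b1 : p ≤ p ^ n := Nat.le_self_pow (by omega) p
      calc p * d * (z 0).natAbs ≤ p ^ n * p ^ (s * c0 * n) * p ^ (K * n) :=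
            Nat.mul_le_mul (Nat.mul_le_mul b1 q1) z3
        _ = _ := by ring
    have a2 : (p : ℝ) ≤ Real.exp p := by linarith [Real.add_one_le_exp (p : ℝ)]
    have a3 := Nat.le_ceil (p * ((s * c0 + K + 1 : ℕ) : ℝ) / δ)
    have a4 : ((⌈p * ((s * c0 + K + 1 : ℕ) : ℝ) / δ⌉₊ : ℝ) + 1) * n ≤ N := by exact_mod_cast h4
    rw [div_le_iff₀ hδ] at a3
    refine le_trans (by exact_mod_cast a1) ((pow_le_pow_left₀ (by norm_num) a2 _).trans ?_)
    rw [← Real.exp_nat_mul, Real.exp_le_exp, Nat.cast_mul]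
    have a5 : (0 : ℝ) ≤ n := Nat.cast_nonneg n
    nlinarith [mul_le_mul_of_nonneg_left a4 hδ.le, mul_le_mul_of_nonneg_left a3 a5]
  have q3 : ((p * d : ℕ) : ℝ) ≤ Real.exp (δ * N) :=
    le_trans (by exact_mod_cast Nat.le_mul_of_pos_right _ (by omega)) q2
  have hD : (((p - q) * d : ℕ) : ℚ) = (p - q) * d := by rw [Nat.cast_mul, Nat.cast_sub hlt.le]
  choose! val hval using fun y (hy : y ∈ Ty) =>
    k_val hp hlt.le ε y.1 y.2 (d := (p - q) * d)
      ((hq ▸ dvd_prod_of_mem (fun y : ℕ × ℕ => p ^ y.2 - q ^ y.2) hy : _ ∣ d).mul_left _)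
  have v1 : ∀ y ∈ Ty, |(val y : ℝ)| ≤ Real.exp (δ * N) := fun y hy => by
    have a1 : (0 : ℚ) < 1 - (q / p) ^ y.2 :=
      sub_pos.2 (pow_lt_one₀ r0' r1 (by have := h2 y hy; omega))
    have a2 := (k_bd r0' hε y.1 y.2).resolve_right r1.not_gt
    have a3 : (0 : ℚ) ≤ d := Nat.cast_nonneg _
    have a4 : |(val y : ℚ)| ≤ (p * d : ℕ) := by
      refine le_of_mul_le_mul_left ?_ a1
      rw [← abs_of_pos a1, ← abs_mul, hval y hy, abs_of_pos a1,
        abs_of_nonneg (mul_nonneg (Nat.cast_nonneg _) a2.1), hD, ← r2]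
      push_cast
      nlinarith [mul_le_mul_of_nonneg_left a2.2 (mul_nonneg p0.le a3)]
    exact le_trans (by exact_mod_cast a4) q3
  obtain ⟨l, l1, l2, l3⟩ := k_list (c := -(p * d * z 0))
    (W := insert _ (Ty.image val ∪ Ty.image fun y => -val y)) (mem_insert_self _ _)
    (fun y hy => ⟨⟨mem_insert_of_mem (mem_union_left _ (mem_image_of_mem _ hy)),
      mem_insert_of_mem (mem_union_right _ (mem_image_of_mem _ hy))⟩, hval y hy⟩) hd
  have e := k_orb hp hz N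
  refine H N (hn.1.trans (le_trans (Nat.le_mul_of_pos_left _ (Nat.succ_pos _)) h4)) d _ l
    (-(p * z N)) ?_ (by omega) q0
    (le_trans (by exact_mod_cast Nat.le_mul_of_pos_left _ hp) q3) (fun w hw => ?_) l2 ?_ ?_
  · refine (card_insert_le _ _).trans (Nat.succ_le_succ ((card_union_le _ _).trans ?_))
    linarith [card_image_le (s := Ty) (f := val), card_image_le (s := Ty) (f := fun y => -val y)]
  · simp only [mem_insert, mem_union, mem_image] at hw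
    rcases hw with rfl | ⟨y, hy, rfl⟩ | ⟨y, hy, rfl⟩
    · refine le_trans (le_of_eq ?_) q2
      push_cast
      rw [abs_neg, abs_mul, abs_mul, Nat.abs_cast, Nat.abs_cast, Nat.cast_natAbs, Int.cast_abs]
    · exact v1 y hy
    · rw [Int.cast_neg, abs_neg]
      exact v1 y hy
  · rw [l3, hD]
    push_cast
    linear_combination d * e
  · have a1 := (k_bd r0' hε 0 N).resolve_right r1.not_gt
    have a2 : (0 : ℚ) ≤ (q / p) ^ N := by positivity
    have a3 : (2 : ℚ) ≤ |(z 0 : ℚ)| := by exact_mod_cast z1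
    have a4 : (1 : ℚ) ≤ p := by exact_mod_cast hp
    push_cast
    rw [← abs_of_nonneg a2, ← abs_mul, ← e, ← r2]
    have a5 : 0 ≤ (1 - q / p) * kB (q / p) ε 0 N := mul_nonneg (sub_pos.2 r1).le a1.1
    have a6 : (1 - q / p) * kB (q / p) ε 0 N ≤ 1 := by linarith [a1.2]
    rw [mul_assoc]
    generalize (1 - q / p) * kB (q / p) ε 0 N = t at *
    rcases le_abs.1 a3 with h | h
    · exact le_abs.2 (Or.inr (by nlinarith))
    · exact le_abs.2 (Or.inl (by nlinarith))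

end Pool.Agent.P.MP_9a799e_nt.FLP
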