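import Pool.Agent.P.MP_9a799e_nt.FLP.C

/-! Balanced words have few factors; integer orbits with a balanced carry word do not exist. -/

set_option autoImplicit false

open Finset Filter
open Pool.Agent.P.MP_fc15d7_nt

namespace Pool.Agent.P.MP_9a799e_nt.FLP

/-- `1 w 1` and `0 w 0` do not both occur when `w` is shorter than `n` -/
def Bal (ε : ℕ → ℕ) (n : ℕ) : Prop :=
  ∀ i j k, k < n → ε i = 1 → ε j = 0 → (∀ t < k, ε (i + 1 + t) = ε (j + 1 + t)) →
    ε (i + 1 + k) = 1 → ε (j + 1 + k) = 0 → False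

theorem Bal.eq {ε : ℕ → ℕ} {n : ℕ} (h1 : ∀ i, ε i ≤ 1) (hb : Bal ε n) {i j i' j' : ℕ}
    (a1 : ε i = 1) (a2 : ε j = 0) (a3 : ∀ t < n, ε (i + 1 + t) = ε (j + 1 + t))
    (b1 : ε i' = 1) (b2 : ε j' = 0) (b3 : ∀ t < n, ε (i' + 1 + t) = ε (j' + 1 + t)) :
    ∀ t < n, ε (i + 1 + t) = ε (i' + 1 + t) := by
  intro t
  induction t using Nat.strong_induction_on with
  | _ t ih =>
    intro ht
    by_contra hc
    have c1 := h1 (i + 1 + t)
    have c2 := h1 (i' + 1 + t)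
    rcases (by omega : ε (i + 1 + t) = 1 ∧ ε (i' + 1 + t) = 0 ∨
        ε (i + 1 + t) = 0 ∧ ε (i' + 1 + t) = 1) with h | h
    · exact hb i j' t ht a1 b2 (fun s hs => (ih s hs (by omega)).trans (b3 s (by omega))) h.1
        ((b3 t ht).symm.trans h.2)
    · exact hb i' j t ht b1 a2 (fun s hs => (ih s hs (by omega)).symm.trans (a3 s (by omega))) h.2
        ((a3 t ht).symm.trans h.1)

theorem cx_succ {ε : ℕ → ℕ} {n : ℕ} (h1 : ∀ i, ε i ≤ 1) (hb : Bal ε n) :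
    cx ε (n + 1) ≤ cx ε n + 1 := by
  classical
  let F : ∀ n : ℕ, Set (Fin n → ℕ) := fun n => {w | ∃ i, ∀ j : Fin n, w j = ε (i + j)}
  have hfin : ∀ n, (F n).Finite := fun n => by
    refine (Set.Finite.pi' fun _ : Fin n => Set.finite_le_nat 1).subset ?_
    rintro w ⟨i, hi⟩ j
    exact (hi j).trans_le (h1 _)
  let g : (Fin n → ℕ) → Fin (n + 1) → ℕ := fun u =>
    if (Fin.cons 0 u : Fin (n + 1) → ℕ) ∈ F (n + 1) then Fin.cons 0 u else Fin.cons 1 u
  let E : Set (Fin (n + 1) → ℕ) := {w | w ∈ F (n + 1) ∧ w 0 = 1 ∧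
    (Fin.cons 0 (Fin.tail w) : Fin (n + 1) → ℕ) ∈ F (n + 1)}
  have hE : ∀ w ∈ E, ∃ i j, ε i = 1 ∧ ε j = 0 ∧ (∀ t < n, ε (i + 1 + t) = ε (j + 1 + t)) ∧
      ∀ t : Fin n, w t.succ = ε (i + 1 + t) := by
    rintro w ⟨⟨i, hi⟩, h0, j, hj⟩
    have e1 : ∀ t : Fin n, w t.succ = ε (i + 1 + t) := fun t => by
      rw [hi, Fin.val_succ, add_assoc, add_comm 1]
    refine ⟨i, j, by simpa [h0] using (hi 0).symm, by simpa using (hj 0).symm, fun t ht => ?_, e1⟩
    have := hj (Fin.succ ⟨t, ht⟩)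
    rw [Fin.cons_succ, Fin.tail, e1] at this
    rw [this, Fin.val_succ, add_assoc, add_comm 1]
  have hE1 : E.Subsingleton := fun w hw w' hw' => by
    obtain ⟨i, j, a1, a2, a3, a4⟩ := hE w hw
    obtain ⟨i', j', b1, b2, b3, b4⟩ := hE w' hw'
    funext t
    refine Fin.cases (hw.2.1.trans hw'.2.1.symm) (fun t => ?_) t
    rw [a4, b4, hb.eq h1 a1 a2 a3 b1 b2 b3 t t.2]
  have hsub : F (n + 1) ⊆ g '' F n ∪ E := fun w hw => by
    by_cases h : w ∈ E
    · exact Or.inr h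
    obtain ⟨i, hi⟩ := hw
    refine Or.inl ⟨Fin.tail w, ⟨i + 1, fun t => by
      rw [Fin.tail, hi, Fin.val_succ, add_assoc, add_comm 1]⟩, ?_⟩
    have h0 : w 0 ≤ 1 := (hi 0).trans_le (h1 _)
    simp only [g]
    split_ifs with h2
    · have : w 0 = 0 := by
        by_contra h3
        exact h ⟨⟨i, hi⟩, by omega, h2⟩
      rw [← this, Fin.cons_self_tail]
    · have : w 0 = 1 := by
        by_contra h3
        refine h2 ?_
        rw [← show w 0 = 0 by omega, Fin.cons_self_tail]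
        exact ⟨i, hi⟩
      exact (congrArg (fun a => (Fin.cons a (Fin.tail w) : Fin (n + 1) → ℕ)) this.symm).trans
        (Fin.cons_self_tail w)
  calc cx ε (n + 1) ≤ (g '' F n ∪ E).ncard :=
        Set.ncard_le_ncard hsub (((hfin n).image g).union hE1.finite)
    _ ≤ _ := (Set.ncard_union_le _ _).trans (add_le_add (Set.ncard_image_le (hfin n))
        ((Set.ncard_le_one hE1.finite).2 hE1))

theorem cx_le {ε : ℕ → ℕ} (h1 : ∀ i, ε i ≤ 1) {n : ℕ} (hb : Bal ε n) : cx ε n ≤ n + 1 := by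
  induction n with
  | zero =>
    exact (Set.ncard_le_one (Set.toFinite _)).2 fun _ _ _ _ => Subsingleton.elim _ _
  | succ n ih =>
    have h2 : Bal ε n := fun i j k hk => hb i j k (by omega)
    exact (cx_succ h1 h2).trans (Nat.succ_le_succ (ih h2))

/-- no integer orbit that starts below `p ^ (K n)` has a carry word balanced up to length `n` -/
theorem no_bal {p q : ℕ} (h2q : 2 ≤ q) (hlt : q < p) (hcop : Nat.Coprime p q) (K : ℕ) :
    ∀ᶠ n in atTop, ∀ (ε : ℕ → ℕ) (z : ℕ → ℤ), (∀ i, ε i ≤ 1) →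
      (∀ i, q * z (i + 1) = p * z i + (p - q) * ε i) → 2 ≤ |z 0| → |z 0| ≤ p ^ (K * n) →
      Aper ε → ¬ Bal ε n := by
  obtain ⟨s, c0, h1⟩ := t_DEC t_SPEC 2
  obtain ⟨T, h2⟩ := q_KEY h2q hlt hcop s c0 K
  obtain ⟨r0, h1⟩ := h1 T
  obtain ⟨n1, h2⟩ := h2 r0
  filter_upwards [eventually_ge_atTop n1, eventually_ge_atTop 2] with n hn1 hn2 ε z hε hz z1 z2 hA hb
  obtain ⟨Ty, r, N, a1, a2, a3, a4, a5⟩ := h1 ε n hε hA hn2 ((cx_le hε hb).trans (by omega))
  exact h2 n hn1 ε z hε hz z1 z2 Ty r N a1 a2 a3 a4 a5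

/-- a periodic carry word forces a periodic orbit -/
theorem per_orb {p q : ℕ} (h2q : 2 ≤ q) (hcop : Nat.Coprime p q) {D : ℕ → ℤ}
    (h : ∀ j, q * D (j + 1) = p * D j) : D 0 = 0 := by
  have h3 : ∀ L, (q : ℤ) ^ L * D L = p ^ L * D 0 := fun L => by
    induction L with
    | zero => simp
    | succ L ih => rw [pow_succ, mul_assoc, h, mul_left_comm, ih]; ring
  by_contra h0
  have h4 : 0 < (D 0).natAbs := Int.natAbs_pos.2 h0
  have h5 : q ^ (D 0).natAbs ∣ (D 0).natAbs := by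
    refine (Nat.Coprime.pow _ (D 0).natAbs hcop.symm).dvd_of_dvd_mul_left
      ⟨(D (D 0).natAbs).natAbs, ?_⟩
    have := congrArg Int.natAbs (h3 (D 0).natAbs)
    simpa [Int.natAbs_mul, Int.natAbs_pow] using this.symm
  exact absurd (Nat.le_of_dvd h4 h5) (not_le.2 (Nat.lt_pow_self (by omega)))

end Pool.Agent.P.MP_9a799e_nt.FLP
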