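import Pool.Agent.P.MP_9a799e_nt.FLP.D

/-! Fractional parts of `ξ (p / q) ^ n` leave every arc of length `1 / p`, with a margin. -/

set_option autoImplicit false

open Filter Topology
open Pool.Agent.P.MP_fc15d7_nt

namespace Pool.Agent.P.MP_9a799e_nt.FLP

/-- the carries of a sequence confined to a short arc take two values and are balanced -/
theorem carries {p q : ℕ} (hq : 0 < q) (hlt : q < p) {s η : ℝ} {x : ℕ → ℤ} {y : ℕ → ℝ}
    (hy : ∀ i, s - η ≤ y i ∧ y i ≤ s + 1 / p + η)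
    (hx : ∀ i, (q * x (i + 1) - p * x i : ℝ) = p * y i - q * y (i + 1)) (h0 : 0 ≤ η)
    (hη : 4 * (p + q) * η ≤ 1 - q / p) :
    ∃ (b : ℤ) (ε : ℕ → ℕ), (∀ i, ε i ≤ 1) ∧ (∀ i, q * x (i + 1) = p * x i + b + ε i) ∧
      |(b : ℝ)| ≤ p * |s| + 2 ∧ ∀ n, 4 * p * η < (1 - q / p) * (q / p) ^ n → Bal ε n := by
  have q0 : (0 : ℝ) < q := by exact_mod_cast hq
  have pq : (q : ℝ) < p := by exact_mod_cast hlt
  have p0 : (0 : ℝ) < p := q0.trans pq
  obtain ⟨ρ, hρ⟩ : ∃ ρ : ℝ, ρ = q / p := ⟨_, rfl⟩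
  obtain ⟨σ, hσ⟩ : ∃ σ : ℝ, σ = 1 / p := ⟨_, rfl⟩
  rw [← hρ] at hη ⊢
  rw [← hσ] at hy
  have r0 : 0 < ρ := by rw [hρ]; positivity
  have r1 : ρ < 1 := by rw [hρ]; exact (div_lt_one p0).2 pq
  have r2 : p * σ = 1 := by rw [hσ]; field_simp
  have r3 : q * σ = ρ := by rw [hσ, hρ]; field_simp
  have r4 : ρ * p = q := by rw [hρ]; field_simp
  obtain ⟨A, hA⟩ : ∃ A : ℝ, A = (p - q) * s - ρ - (p + q) * η := ⟨_, rfl⟩
  have hb : ∀ i, ⌈A⌉ ≤ q * x (i + 1) - p * x i ∧ q * x (i + 1) - p * x i < ⌈A⌉ + 2 := fun i => by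
    have a1 := mul_le_mul_of_nonneg_left (hy i).1 p0.le
    have a2 := mul_le_mul_of_nonneg_left (hy i).2 p0.le
    have a3 := mul_le_mul_of_nonneg_left (hy (i + 1)).1 q0.le
    have a4 := mul_le_mul_of_nonneg_left (hy (i + 1)).2 q0.le
    have a5 := Int.le_ceil A
    refine ⟨Int.ceil_le.2 ?_, ?_⟩
    · push_cast
      rw [hx, hA]
      linarith
    · rw [← Int.cast_lt (R := ℝ)]
      push_cast
      rw [hx]
      linarith
  have he : ∀ i, (((q * x (i + 1) - p * x i - ⌈A⌉).toNat : ℕ) : ℤ) =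
      q * x (i + 1) - p * x i - ⌈A⌉ := fun i => Int.toNat_of_nonneg (by have := hb i; omega)
  refine ⟨⌈A⌉, fun i => (q * x (i + 1) - p * x i - ⌈A⌉).toNat, fun i => ?_, fun i => ?_, ?_,
    fun n hn i j k hk a1 a2 a3 a4 a5 => ?_⟩
  · have := hb i
    beta_reduce
    omega
  · rw [he]; ring
  · have a1 := Int.le_ceil A
    have a2 := Int.ceil_lt_add_one A
    have a3 : |(p - q) * s| ≤ p * |s| := by
      rw [abs_mul, abs_of_pos (sub_pos.2 pq)]
      exact mul_le_mul_of_nonneg_right (by linarith) (abs_nonneg _)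
    have a4 := abs_le.1 a3
    have a5 : 0 ≤ (p + q) * η := by positivity
    rw [abs_le]
    constructor <;> linarith
  · obtain ⟨ε, hε⟩ : ∃ ε : ℕ → ℕ, ε = fun i => (q * x (i + 1) - p * x i - ⌈A⌉).toNat := ⟨_, rfl⟩
    have h1 : ∀ i, p * y i = q * y (i + 1) + ⌈A⌉ + ε i := fun i => by
      have : ((ε i : ℤ) : ℝ) = ((q * x (i + 1) - p * x i - ⌈A⌉ : ℤ) : ℝ) := by rw [hε, he]
      push_cast at this
      linarith [hx i]
    have b1 : ε i = 1 := hε ▸ a1
    have b2 : ε j = 0 := hε ▸ a2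
    have b3 : ∀ t < k, ε (i + 1 + t) = ε (j + 1 + t) := hε ▸ a3
    have b4 : ε (i + 1 + k) = 1 := hε ▸ a4
    have b5 : ε (j + 1 + k) = 0 := hε ▸ a5
    have h2 : ∀ t ≤ k, y (i + 1) - y (j + 1) = ρ ^ t * (y (i + 1 + t) - y (j + 1 + t)) := by
      intro t
      induction t with
      | zero => simp
      | succ t ih =>
        intro ht
        have e1 := h1 (i + 1 + t)
        have e2 := h1 (j + 1 + t)
        rw [b3 t ht] at e1
        rw [ih (by omega), pow_succ, mul_assoc, ← add_assoc, ← add_assoc]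
        congr 1
        refine mul_left_cancel₀ p0.ne' ?_
        linear_combination e1 - e2 - (y (i + 1 + t + 1) - y (j + 1 + t + 1)) * r4
    have e1 := h1 i
    have e2 := h1 j
    have e3 := h1 (i + 1 + k)
    have e4 := h1 (j + 1 + k)
    rw [b1] at e1
    rw [b2] at e2
    rw [b4] at e3
    rw [b5] at e4
    push_cast at e1 e2 e3 e4
    have c1 : q * (y (i + 1) - y (j + 1)) ≤ 2 * p * η := by
      linarith [mul_le_mul_of_nonneg_left (hy i).2 p0.le, mul_le_mul_of_nonneg_left (hy j).1 p0.le]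
    have c2 : (1 - ρ) / 2 ≤ p * (y (i + 1 + k) - y (j + 1 + k)) := by
      have : 0 ≤ p * η := by positivity
      linarith [mul_le_mul_of_nonneg_left (hy (i + 1 + k + 1)).1 q0.le,
        mul_le_mul_of_nonneg_left (hy (j + 1 + k + 1)).2 q0.le]
    have c3 : ρ ^ n ≤ ρ ^ (k + 1) := pow_le_pow_of_le_one r0.le r1.le hk
    have c4 := mul_le_mul_of_nonneg_left c2 (pow_pos r0 (k + 1)).le
    have c5 : ρ ^ (k + 1) * (p * (y (i + 1 + k) - y (j + 1 + k))) =
        q * (y (i + 1) - y (j + 1)) := by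
      rw [h2 k le_rfl, ← r4]; ring
    nlinarith [mul_le_mul_of_nonneg_left c3 (sub_pos.2 r1).le]

theorem main {p q : ℕ} (h2q : 2 ≤ q) (hlt : q < p) (hcop : Nat.Coprime p q) {ξ s θ : ℝ}
    (hξ : ξ ≠ 0) (h0 : 0 < θ) (h1 : θ < 1) :
    ∃ᶠ n in atTop, ∀ k : ℤ,
      ξ * (p / q : ℝ) ^ n - k ∉ Set.Icc (s - θ ^ n) (s + 1 / p + θ ^ n) := by
  intro hc
  simp only [not_forall, not_not] at hc
  obtain ⟨n0, hc⟩ := eventually_atTop.1 hc
  choose! x hx using hc
  have q0 : (0 : ℝ) < q := by positivity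
  have pq : (q : ℝ) < p := by exact_mod_cast hlt
  have p0 : (0 : ℝ) < p := q0.trans pq
  have p1 : (1 : ℝ) < p := by exact_mod_cast (show 1 < p by omega)
  have a1 : (1 : ℝ) < p / q := (one_lt_div q0).2 pq
  have a2 : (p / q : ℝ) ≤ p := div_le_self p0.le (by exact_mod_cast (show 1 ≤ q by omega))
  have r0 : (0 : ℝ) < q / p := by positivity
  have r1 : (q / p : ℝ) < 1 := (div_lt_one p0).2 pq
  have x0 : 0 < |ξ| := abs_pos.2 hξ
  have σ1 : (1 / p : ℝ) ≤ 1 := (div_le_one p0).2 p1.le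
  have σ0 : (0 : ℝ) < 1 / p := by positivity
  obtain ⟨K, hK⟩ := exists_pow_lt_of_lt_one (half_pos r0) h1
  have hθ : ∀ m, θ ^ m ≤ 1 := fun m => pow_le_one₀ h0.le h1.le
  have hm : Tendsto (fun n : ℕ => (K + 1) * n) atTop atTop :=
    tendsto_atTop_mono (fun n => Nat.le_mul_of_pos_left n K.succ_pos) tendsto_id
  have t1 : ∀ᶠ m : ℕ in atTop, 4 * (p + q) * θ ^ m ≤ 1 - q / p := by
    have := (tendsto_pow_atTop_nhds_zero_of_lt_one h0.le h1).const_mul (4 * ((p : ℝ) + q))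
    rw [mul_zero] at this
    exact this.eventually_le_const (sub_pos.2 r1)
  have t2 : ∀ C : ℝ, ∀ᶠ m : ℕ in atTop, C ≤ (p / q : ℝ) ^ m := fun C =>
    (tendsto_pow_atTop_atTop_of_one_lt a1).eventually_ge_atTop C
  have t3 : ∀ᶠ n : ℕ in atTop, 4 * p * (1 / 2 : ℝ) ^ n < 1 - q / p := by
    have := (tendsto_pow_atTop_nhds_zero_of_lt_one (r := (1 / 2 : ℝ)) (by norm_num)
      (by norm_num)).const_mul (4 * (p : ℝ))
    rw [mul_zero] at this
    exact this.eventually_lt_const (sub_pos.2 r1)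
  have t4 : ∀ᶠ n : ℕ in atTop, p * (|ξ| + |s| + 2) + (p * |s| + 2) ≤ (p : ℝ) ^ n :=
    (tendsto_pow_atTop_atTop_of_one_lt p1).eventually_ge_atTop _
  obtain ⟨n, n1, n2, n3, n4, n5, n6⟩ := ((no_bal h2q hlt hcop (K + 2)).and
    ((hm.eventually (eventually_ge_atTop n0)).and ((hm.eventually t1).and
      ((hm.eventually (t2 ((|s| + 2 + (p * |s| + 4)) / |ξ|))).and (t3.and t4))))).exists
  have n7 : θ ^ ((K + 1) * n) ≤ (q / p) ^ n * (1 / 2) ^ n := by
    rw [pow_mul, ← mul_pow]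
    refine pow_le_pow_left₀ (by positivity) ?_ n
    rw [pow_succ]
    nlinarith [pow_pos h0 K]
  have n8 : (p : ℝ) ^ ((K + 2) * n) = p ^ n * p ^ ((K + 1) * n) := by ring
  generalize (K + 1) * n = m at *
  have hy : ∀ i, s - θ ^ m ≤ ξ * (p / q : ℝ) ^ (m + i) - x (m + i) ∧
      ξ * (p / q : ℝ) ^ (m + i) - x (m + i) ≤ s + 1 / p + θ ^ m := fun i => by
    have b1 := hx (m + i) (by omega)
    have b2 : θ ^ (m + i) ≤ θ ^ m := pow_le_pow_of_le_one h0.le h1.le (by omega)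
    exact ⟨by linarith [b1.1], by linarith [b1.2]⟩
  obtain ⟨b, ε, e1, e2, e3, e4⟩ := carries (by omega) hlt (x := fun i => x (m + i)) hy
    (fun i => by rw [← add_assoc, pow_succ]; field_simp; ring) (by positivity) n3
  have hs := abs_le.1 (le_refl |s|)
  have y0 : |ξ * (p / q : ℝ) ^ m - x m| ≤ |s| + 2 := by
    have := hy 0
    rw [add_zero] at this
    rw [abs_le]
    constructor <;> linarith [this.1, this.2, hθ m]
  have y1 : |ξ * (p / q : ℝ) ^ m| = |ξ| * (p / q) ^ m := by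
    rw [abs_mul, abs_of_pos (by positivity : (0 : ℝ) < (p / q) ^ m)]
  have g1 : (1 : ℝ) ≤ p - q := by
    have : (q : ℝ) + 1 ≤ p := by exact_mod_cast hlt
    linarith
  have y2 : |((p : ℝ) - q) * x m| = (p - q) * |(x m : ℝ)| := by
    rw [abs_mul, abs_of_pos (by linarith)]
  refine n1 ε (fun i => (p - q) * x (m + i) + b) e1 (fun i => by linear_combination (p - q) * e2 i)
    ?_ ?_ (fun i a ha => ?_) (e4 n ?_)
  · rw [← Int.cast_le (R := ℝ)]
    push_cast
    rw [div_le_iff₀ x0] at n4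
    have b1 := abs_sub_abs_le_abs_sub (ξ * (p / q : ℝ) ^ m) (x m)
    have b2 := abs_sub_abs_le_abs_add (((p : ℝ) - q) * x m) b
    have b3 := le_mul_of_one_le_left (abs_nonneg (x m : ℝ)) g1
    rw [add_zero]
    linarith
  · rw [← Int.cast_le (R := ℝ)]
    push_cast
    have b1 := abs_sub_abs_le_abs_sub (x m : ℝ) (ξ * (p / q : ℝ) ^ m)
    rw [abs_sub_comm] at b1
    have b2 := abs_add_le (((p : ℝ) - q) * x m) b
    have b3 : (p / q : ℝ) ^ m ≤ p ^ m := pow_le_pow_left₀ (by positivity) a2 m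
    have b4 : (1 : ℝ) ≤ p ^ m := one_le_pow₀ p1.le
    have b5 : |(x m : ℝ)| ≤ (|ξ| + |s| + 2) * p ^ m := by
      nlinarith [mul_le_mul_of_nonneg_left b3 x0.le, abs_nonneg s]
    have b6 := mul_le_mul (show (p : ℝ) - q ≤ p by linarith) b5 (abs_nonneg _) p0.le
    have b7 := mul_le_mul_of_nonneg_right n6 (by positivity : (0 : ℝ) ≤ p ^ m)
    have b8 := le_mul_of_one_le_right (by positivity : (0 : ℝ) ≤ p * |s| + 2) b4
    rw [add_zero, n8]
    linarith
  · by_contra hc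
    push Not at hc
    have b1 : (0 : ℝ) < (p / q) ^ a - 1 := sub_pos.2 (one_lt_pow₀ a1 ha.ne')
    obtain ⟨j, j1, j2⟩ := ((eventually_ge_atTop i).and (t2 (4 / (|ξ| * ((p / q) ^ a - 1))))).exists
    have b2 := per_orb h2q hcop (D := fun t => x (m + (j + t + a)) - x (m + (j + t))) fun t => by
      have c1 := e2 (j + t + a)
      have c2 := e2 (j + t)
      rw [hc (j + t) (by omega)] at c1
      rw [show j + (t + 1) + a = j + t + a + 1 by ring, ← add_assoc j t 1]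
      linear_combination c1 - c2
    have b3 : (x (m + (j + a)) : ℝ) = x (m + j) := by exact_mod_cast sub_eq_zero.1 b2
    have b4 := hy (j + a)
    have b5 := hy j
    rw [b3] at b4
    have b6 : |ξ * (p / q : ℝ) ^ (m + (j + a)) - ξ * (p / q : ℝ) ^ (m + j)| ≤ 3 := by
      rw [abs_le]
      constructor <;> linarith [b4.1, b4.2, b5.1, b5.2, hθ m]
    rw [show ξ * (p / q : ℝ) ^ (m + (j + a)) - ξ * (p / q : ℝ) ^ (m + j) =
      ξ * (((p / q) ^ a - 1) * (p / q) ^ j * (p / q) ^ m) by ring, abs_mul,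
      abs_of_pos (by positivity : (0 : ℝ) < ((p / q) ^ a - 1) * (p / q) ^ j * (p / q) ^ m)] at b6
    rw [div_le_iff₀ (by positivity)] at j2
    have b7 : (1 : ℝ) ≤ (p / q) ^ m := one_le_pow₀ a1.le
    have b8 := le_mul_of_one_le_right
      (by positivity : (0 : ℝ) ≤ |ξ| * (((p / q) ^ a - 1) * (p / q) ^ j)) b7
    linarith
  · have b1 := mul_lt_mul_of_pos_right n5 (pow_pos r0 n)
    have b2 := mul_le_mul_of_nonneg_left n7 (by positivity : (0 : ℝ) ≤ 4 * p)
    linarith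

end Pool.Agent.P.MP_9a799e_nt.FLP
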